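import Pool.Agent.Helper55.FX.Main

/-!
# MP_33355d_nt: bounded orbits of the 5x+1 map

A power saving for the number of the integers whose whole orbit stays in `[-X, X]`, among them all
elements of all the cycles inside `[-X, X]`.
-/

set_option autoImplicit false

namespace Pool.Agent.Results.MP_33355d_nt.BoundedOrbits

/-- the `5x+1` map -/
def T5 (n : ℤ) : ℤ := if n % 2 = 0 then n / 2 else (5 * n + 1) / 2

/-- the integers whose whole orbit stays in `[-X, X]` -/
def Bdd (X : ℝ) : Set ℤ := {n | ∀ k : ℕ, |((T5^[k] n : ℤ) : ℝ)| ≤ X}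

/-- the binary entropy, in bits, of `log 2 / log 5` -/
noncomputable def H : ℝ := Real.binEntropy (Real.log 2 / Real.log 5) / Real.log 2

theorem result :
    H < 0.9862 ∧ ∀ h : ℝ, H < h →
      ∃ C : ℝ, ∀ X : ℝ, 1 ≤ X → (Bdd X).Finite ∧ ((Bdd X).ncard : ℝ) ≤ C * X ^ h :=
  ⟨Pool.Agent.Helper55.FX.hh_lt, fun _ hh =>
    let ⟨C, _, h, _⟩ := Pool.Agent.Helper55.FX.Bdd_card hh
    ⟨C, h⟩⟩

end Pool.Agent.Results.MP_33355d_nt.BoundedOrbits
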