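import Pool.Agent.Helper21.FX.B

/-!
# MP_33355d_nt: a packing bound for the cycles of the 5x+1 map

The elements of a cycle satisfy `L log 2 - K log 5 = ∑ log (1 + 1 / (5 x))` (odd elements `x`), and
different cycles are disjoint.  Hence the sum of the gaps `|L log 2 - K log 5|` over any finite set
of cycles is at most logarithmic, and at most `log (X / e) / e` cycles with at most `X` odd elements
have gap at least `e`.
-/

set_option autoImplicit false

namespace Pool.Agent.Results.MP_33355d_nt.CyclePacking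

/-- the `5x+1` map -/
def T5 (n : ℤ) : ℤ := if n % 2 = 0 then n / 2 else (5 * n + 1) / 2

/-- `c` is a periodic orbit of the `5x+1` map -/
def IsCycle (c : Finset ℤ) : Prop :=
  ∃ n : ℤ, (∃ p : ℕ, 0 < p ∧ T5^[p] n = n) ∧ ∀ m, m ∈ c ↔ ∃ k : ℕ, T5^[k] n = m

/-- the number of odd elements -/
def odds (c : Finset ℤ) : ℕ := (c.filter fun n => n % 2 = 1).card

/-- `|L log 2 - K log 5|`, where `c` has `L` elements, `K` of them odd -/
noncomputable def gap (c : Finset ℤ) : ℝ := |(c.card : ℝ) * Real.log 2 - (odds c : ℝ) * Real.log 5|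

/-- the cycles different from `{0}` with at most `X` odd elements and gap at least `e` -/
def Cyc (X : ℕ) (e : ℝ) : Set (Finset ℤ) := {c | IsCycle c ∧ c ≠ {0} ∧ odds c ≤ X ∧ e ≤ gap c}

theorem result :
    (∀ F : Finset (Finset ℤ), (∀ c ∈ F, IsCycle c ∧ c ≠ {0}) →
      ∑ c ∈ F, gap c ≤ (1 + Real.log (∑ c ∈ F, odds c : ℕ)) / 2) ∧
    ∀ X : ℕ, 1 ≤ X → ∀ e : ℝ, 0 < e → e ≤ 1 →
      (Cyc X e).Finite ∧ ((Cyc X e).ncard : ℝ) ≤ Real.log (X / e) / e :=
  ⟨fun F hF => Pool.Agent.Helper21.FX.sum_gap F hF _ le_rfl, Pool.Agent.Helper21.FX.cyc_count⟩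

end Pool.Agent.Results.MP_33355d_nt.CyclePacking
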