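import Pool.Agent.Helper32.HP.PerFull

/-!
# MP_33355d_nt: the periods of the cycles of the 5x+1 map are sparse
-/

namespace Pool.Agent.Results.MP_33355d_nt.SparsePeriods

/-- The `5x+1` map: `n / 2` for even `n`, `(5 n + 1) / 2` for odd `n`. -/
def T5 (n : ℤ) : ℤ := if n % 2 = 0 then n / 2 else (5 * n + 1) / 2

/-- `S` is a periodic orbit `{n, T5 n, .., T5^(p-1) n}` with `p ≥ 1`, `T5^p n = n`. -/
def IsCycle (S : Finset ℤ) : Prop :=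
  ∃ (n : ℤ) (p : ℕ), 1 ≤ p ∧ T5^[p] n = n ∧ S = (Finset.range p).image fun i => T5^[i] n

theorem result : ∃ C : ℝ,
    (∀ N : ℕ, 2 ≤ N → ∃ q : ℕ, Real.log N ≤ q ∧
      ({k : ℕ | k ≤ N ∧ ¬ q ∣ k ∧ ∃ S : Finset ℤ, IsCycle S ∧ S.card = k}.ncard : ℝ) ≤
        C * (√(N : ℝ) * Real.log N)) ∧
    ∀ M : ℕ, ∃ N : ℕ, M ≤ N ∧
      ({k : ℕ | k ≤ N ∧ ∃ S : Finset ℤ, IsCycle S ∧ S.card = k}.ncard : ℝ) ≤
        C * (√(N : ℝ) * Real.log N) :=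
  Pool.Agent.Helper32.HP.PerFull.main

end Pool.Agent.Results.MP_33355d_nt.SparsePeriods
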